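import Pool.Agent.H44.EQ.Targets

/-!
# MP_6ab439_lc: row CNG (canonization of maps on pairs of tuples)
-/

set_option autoImplicit false

namespace Pool.Agent.H21.EQ

open Pool.Agent.H44.EQ
open Pool.Agent.H53.NR
open Pool.Agent.H53.GC Pool.Agent.H68.BP Pool.Agent.H58.SF
open Pool.Agent.H53.RG (ulim ulim_spec cone cone_mem)

theorem pf_CNG : T_CNG := by
  intro V X I Z _ _ _ _ c hR h
  obtain ⟨n, ⟨d⟩⟩ := Finite.exists_equiv_fin (I ⊕ I)
  rcases isEmpty_or_nonempty V with hV | hV
  · -- `V` is empty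
    refine ⟨h, ?_, ?_⟩
    · intro v w v' w' _
      rcases isEmpty_or_nonempty I with hI | ⟨⟨i⟩⟩
      · rw [Subsingleton.elim v v', Subsingleton.elim w w']
      · exact (hV.false (v i)).elim
    · intro K
      refine ⟨id, fun x _ _ _ h1 => h1, fun _ _ _ _ _ => rfl, fun v w _ _ => rfl⟩
  obtain ⟨x0⟩ := hV
  have hZ : Nonempty Z := ⟨h (fun _ => x0) (fun _ => x0)⟩
  obtain ⟨k, ⟨e⟩⟩ := Finite.exists_equiv_fin Z
  have key : ∀ K : Finset V, ∃ g : V → V, (∀ x ∈ K, ∀ y ∈ K, x < y → g x < g y) ∧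
      (∀ x ∈ K, ∀ y ∈ K, x ≤ y → c (g x) (g y) = c x y) ∧
      ∀ v w v' w' : I → V, (∀ i, v i ∈ K) → (∀ i, w i ∈ K) → (∀ i, v' i ∈ K) →
        (∀ i, w' i ∈ K) → SameType c (Sum.elim v w) (Sum.elim v' w') →
        h (fun i => g (v i)) (fun i => g (w i)) = h (fun i => g (v' i)) (fun i => g (w' i)) := by
    intro K
    obtain ⟨g, h1, h2, h3⟩ := hR n k K (fun z =>
      e (h (fun i => z (d (Sum.inl i))) (fun i => z (d (Sum.inr i)))))
    refine ⟨g, h1, h2, fun v w v' w' hv hw hv' hw' hT => ?_⟩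
    have h4 := h3 (fun i => Sum.elim v w (d.symm i))
      (fun i => Sum.elim v' w' (d.symm i)) (by
        intro i
        rcases d.symm i with j | j
        · exact hv j
        · exact hw j) (by
        intro i
        rcases d.symm i with j | j
        · exact hv' j
        · exact hw' j) (fun i j => hT _ _)
    have h5 := e.injective h4
    simp only [Equiv.symm_apply_apply, Sum.elim_inl, Sum.elim_inr] at h5
    exact h5
  choose g hg hc hT using key
  have hu : ∀ v w : I → V, ∀ᶠ K in ((cone V : Ultrafilter (Finset V)) : Filter (Finset V)),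
      h (fun i => g K (v i)) (fun i => g K (w i)) =
        ulim (cone V) (fun K => h (fun i => g K (v i)) (fun i => g K (w i))) :=
    fun v w => ulim_spec _ _
  have hF : ∀ v : I → V,
      ∀ᶠ K in ((cone V : Ultrafilter (Finset V)) : Filter (Finset V)), ∀ i, v i ∈ K := by
    intro v
    refine Filter.eventually_all.2 fun i => ?_
    filter_upwards [cone_mem {v i}] with K hK
    exact hK (Finset.mem_singleton_self _)
  refine ⟨fun v w => ulim (cone V) (fun K => h (fun i => g K (v i)) (fun i => g K (w i))),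
    ?_, ?_⟩
  · intro v w v' w' hvw
    obtain ⟨K, ⟨⟨⟨⟨⟨h1, h2⟩, h3⟩, h4⟩, h5⟩, h6⟩⟩ := ((((((hu v w).and (hu v' w')).and (hF v)).and
      (hF w)).and (hF v')).and (hF w')).exists
    beta_reduce
    rw [← h1, ← h2]
    exact hT K v w v' w' h3 h4 h5 h6 hvw
  · intro K
    have h1 : ∀ᶠ K' in ((cone V : Ultrafilter (Finset V)) : Filter (Finset V)),
        ∀ v w : I → K, h (fun i => g K' (v i)) (fun i => g K' (w i)) =
          ulim (cone V) (fun K' => h (fun i => g K' (v i)) (fun i => g K' (w i))) :=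
      Filter.eventually_all.2 fun v => Filter.eventually_all.2 fun w =>
        hu (fun i => (v i : V)) (fun i => (w i : V))
    obtain ⟨K', h2, h3⟩ := (h1.and (cone_mem K)).exists
    refine ⟨g K', fun x hx y hy hxy => hg K' x (h3 hx) y (h3 hy) hxy,
      fun x hx y hy hxy => hc K' x (h3 hx) y (h3 hy) hxy, fun v w hv hw => ?_⟩
    exact (h2 (fun i => ⟨v i, hv i⟩) (fun i => ⟨w i, hw i⟩)).symm

end Pool.Agent.H21.EQ
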